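import Pool.Agent.H75C.HY.GameDef

/-!
# The game step is computable in polynomial time
-/

set_option autoImplicit false

namespace Pool.Agent.Helper48.HY

open Pool.Agent.NPC Pool.Agent.H75C.HY

theorem lk_eq (l : List (ℕ × ℕ)) (d x : ℕ) :
    lk l d x = (((l.filter fun p => decide (x = p.1)).head?).getD (0, d)).2 := by
  induction l with
  | nil => rfl
  | cons p l ih =>
    rw [lk, List.filter_cons]
    by_cases h : x = p.1
    · simp [h]
    · simp [h, ih]

section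

variable {α : Type} [TEnc α]

theorem poly_lk {l : α → List (ℕ × ℕ)} {d x : α → ℕ} (hl : NPC.Poly l) (hd : NPC.Poly d)
    (hx : NPC.Poly x) : NPC.Poly (fun a => lk (l a) (d a) (x a)) := by
  have h1 : NPC.Poly (fun a => ((l a).filter fun p => decide (x a = p.1)).head?) :=
    NPC.Poly.head? (NPC.Poly.filter (p := fun a (p : ℕ × ℕ) => decide (x a = p.1)) hl
      (NPC.Poly.decide_eq (hx.comp (NPC.Poly.fst NPC.Poly.id))
        (NPC.Poly.fst (NPC.Poly.snd NPC.Poly.id))))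
  refine (NPC.Poly.optCases (g := fun a => d a) (h := fun _ b => b.2) h1 hd
    (NPC.Poly.snd (NPC.Poly.snd NPC.Poly.id))).congr fun a => ?_
  rw [lk_eq]
  cases ((l a).filter fun p => decide (x a = p.1)).head? <;> rfl

theorem poly_sF {D : α → Dat} {tl : α → List Tok} {e : α → List (ℕ × ℕ)} {v : α → ℕ}
    {b r : α → Bool} (hD : NPC.Poly D) (htl : NPC.Poly tl) (he : NPC.Poly e) (hv : NPC.Poly v)
    (hb : NPC.Poly b) (hr : NPC.Poly r) :
    NPC.Poly (fun a => sF (D a) (tl a) (e a) (v a) (b a) (r a)) := by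
  unfold sF
  exact NPC.Poly.pair (NPC.Poly.pair (NPC.Poly.some hr) (NPC.Poly.const true))
    (NPC.Poly.pair hD (NPC.Poly.pair htl (NPC.Poly.pair he (NPC.Poly.pair hv hb))))

theorem poly_sN {D : α → Dat} {tl : α → List Tok} {e : α → List (ℕ × ℕ)} {v : α → ℕ}
    {b : α → Bool} (hD : NPC.Poly D) (htl : NPC.Poly tl) (he : NPC.Poly e) (hv : NPC.Poly v)
    (hb : NPC.Poly b) :
    NPC.Poly (fun a => sN (D a) (tl a) (e a) (v a) (b a)) := by
  unfold sN
  exact NPC.Poly.pair (NPC.Poly.const (none, true))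
    (NPC.Poly.pair hD (NPC.Poly.pair htl (NPC.Poly.pair he (NPC.Poly.pair hv hb))))

theorem poly_rstep {E : ℕ → List Bool → Bool} {K : ℕ → ℕ} {argAt : List Tok → ℕ → List Tok}
    (hE : NPC.Poly (fun p : ℕ × List Bool => E p.1 p.2)) (hK : NPC.Poly K)
    (hA : NPC.Poly (fun p : List Tok × ℕ => argAt p.1 p.2))
    {D : α → Dat} {t : α → Tok} {tl : α → List Tok} {e : α → List (ℕ × ℕ)} {v : α → ℕ}
    {b : α → Bool} {M M' : α → List Bool}
    (hD : NPC.Poly D) (ht : NPC.Poly t) (htl : NPC.Poly tl) (he : NPC.Poly e) (hv : NPC.Poly v)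
    (hb : NPC.Poly b) (hM : NPC.Poly M) (hM' : NPC.Poly M') :
    NPC.Poly (fun a => rstep E K argAt (D a) (t a) (tl a) (e a) (v a) (b a) (M a) (M' a)) := by
  have c : ∀ n : ℕ, NPC.Poly (fun a => decide ((t a).1 = n)) := fun n =>
    NPC.Poly.decide_eq (NPC.Poly.fst ht) (NPC.Poly.const n)
  have f : ∀ {r : α → Bool}, NPC.Poly r →
      NPC.Poly (fun a => sF (D a) (tl a) (e a) (v a) (b a) (r a)) := fun hr =>
    poly_sF hD htl he hv hb hr
  have hD1 : NPC.Poly (fun a => (D a).1) := NPC.Poly.fst hD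
  have hD2 : NPC.Poly (fun a => (D a).2.1) := NPC.Poly.fst (NPC.Poly.snd hD)
  have hD3 : NPC.Poly (fun a => (D a).2.2) := NPC.Poly.snd (NPC.Poly.snd hD)
  have ht2 : NPC.Poly (fun a => (t a).2) := NPC.Poly.snd ht
  have hm : NPC.Poly (fun a => valB (M a)) := NPC.Poly.valBits hM
  have hm' : NPC.Poly (fun a => valB (M' a)) := NPC.Poly.valBits hM'
  have hEM : NPC.Poly (fun a => E (t a).2 (M a)) := hE.comp (NPC.Poly.pair ht2 hM)
  have hKt : NPC.Poly (fun a => K (t a).2) := hK.comp ht2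
  have hAt : NPC.Poly (fun a => argAt (t a :: tl a) (valB (M' a))) :=
    hA.comp (NPC.Poly.pair (NPC.Poly.cons ht htl) hm')
  have hmem : NPC.Poly (fun a => decide (((t a).2, v a) ∈ (D a).2.1)) :=
    (NPC.Poly.decide_mem (NPC.Poly.pair ht2 hv) hD2).congr fun a => by
      rw [decide_eq_decide]
  unfold rstep
  refine NPC.Poly.ite (c 0) (f (NPC.Poly.decide_eq hmem hb)) ?_
  refine NPC.Poly.ite (c 1) (f (NPC.Poly.decide_eq (NPC.Poly.decide_eq hv (poly_lk hD3 hD1 ht2))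
    hb)) ?_
  refine NPC.Poly.ite (c 2) (f (NPC.Poly.decide_eq (NPC.Poly.decide_eq hv (poly_lk he hD1 ht2))
    hb)) ?_
  refine NPC.Poly.ite (c 3) ?_ ?_
  · refine NPC.Poly.ite (NPC.Poly.decide_eq hEM hb) ?_ (f (NPC.Poly.const false))
    refine NPC.Poly.ite (NPC.Poly.decide_lt hm' hKt) ?_ (f (NPC.Poly.const true))
    exact poly_sN hD hAt he hv (NPC.Poly.getD hM hm' (NPC.Poly.const false))
  refine NPC.Poly.ite (NPC.Poly.decide_or (c 6) (c 7)) ?_ ?_
  · refine NPC.Poly.ite (NPC.Poly.decide_eq (c 6) hb) ?_ ?_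
    · exact NPC.Poly.ite (NPC.Poly.decide_lt hm hD1) (poly_sN hD htl he hm hb)
        (f (NPC.Poly.const false))
    · exact NPC.Poly.ite (NPC.Poly.decide_lt hm' hD1) (poly_sN hD htl he hm' hb)
        (f (NPC.Poly.const true))
  refine NPC.Poly.ite (c 8) ?_ (f (NPC.Poly.const false))
  exact poly_sN hD htl (NPC.Poly.cons (NPC.Poly.pair ht2 (NPC.Poly.min hv
    (NPC.Poly.length hM))) he) hv hb

theorem poly_first {tl : α → List Tok} {M : α → List Bool} (htl : NPC.Poly tl)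
    (hM : NPC.Poly M) : NPC.Poly (fun a => first (tl a) (M a)) := by
  have h1 : NPC.Poly (fun a => unbits (Dat × List (ℕ × ℕ) × ℕ) (unpair (M a)).1) :=
    poly_unbits.comp (NPC.Poly.fst (poly_unpair.comp hM))
  have hd : NPC.Poly (fun p : α × (Dat × List (ℕ × ℕ) × ℕ) =>
      if p.2.2.2 < p.2.1.1 ∧ p.2.1.1 ≤ (M p.1).length then sN p.2.1 (tl p.1) p.2.2.1 p.2.2.2 true
      else sL) := by
    have g1 : NPC.Poly (fun p : α × (Dat × List (ℕ × ℕ) × ℕ) => p.2.2.2) :=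
      NPC.Poly.snd (NPC.Poly.snd (NPC.Poly.snd NPC.Poly.id))
    have g2 : NPC.Poly (fun p : α × (Dat × List (ℕ × ℕ) × ℕ) => p.2.1) :=
      NPC.Poly.fst (NPC.Poly.snd NPC.Poly.id)
    have g3 : NPC.Poly (fun p : α × (Dat × List (ℕ × ℕ) × ℕ) => p.2.2.1) :=
      NPC.Poly.fst (NPC.Poly.snd (NPC.Poly.snd NPC.Poly.id))
    refine NPC.Poly.ite (NPC.Poly.decide_and (NPC.Poly.decide_lt g1 (NPC.Poly.fst g2))
      (NPC.Poly.decide_le (NPC.Poly.fst g2) (NPC.Poly.length (hM.comp (NPC.Poly.fst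
        NPC.Poly.id))))) ?_ (NPC.Poly.const _)
    exact poly_sN g2 (htl.comp (NPC.Poly.fst NPC.Poly.id)) g3 g1 (NPC.Poly.const true)
  refine (NPC.Poly.optCases (g := fun _ => sL) (h := fun a (d : Dat × List (ℕ × ℕ) × ℕ) =>
    if d.2.2 < d.1.1 ∧ d.1.1 ≤ (M a).length then sN d.1 (tl a) d.2.1 d.2.2 true else sL) h1
    (NPC.Poly.const _) hd).congr fun a => ?_
  unfold first
  cases unbits (Dat × List (ℕ × ℕ) × ℕ) (unpair (M a)).1 <;> rfl

theorem poly_gstep {E : ℕ → List Bool → Bool} {K : ℕ → ℕ} {argAt : List Tok → ℕ → List Tok}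
    (hE : NPC.Poly (fun p : ℕ × List Bool => E p.1 p.2)) (hK : NPC.Poly K)
    (hA : NPC.Poly (fun p : List Tok × ℕ => argAt p.1 p.2))
    {s : α → Sta} {M M' : α → List Bool} (hs : NPC.Poly s) (hM : NPC.Poly M)
    (hM' : NPC.Poly M') :
    NPC.Poly (fun a => gstep E K argAt (s a) (M a) (M' a)) := by
  have s11 : NPC.Poly (fun a => (s a).1.1) := NPC.Poly.fst (NPC.Poly.fst hs)
  have s12 : NPC.Poly (fun a => (s a).1.2) := NPC.Poly.snd (NPC.Poly.fst hs)
  have s21 : NPC.Poly (fun a => (s a).2.1) := NPC.Poly.fst (NPC.Poly.snd hs)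
  have s3 : NPC.Poly (fun a => (s a).2.2.1) := NPC.Poly.fst (NPC.Poly.snd (NPC.Poly.snd hs))
  have s4 : NPC.Poly (fun a => (s a).2.2.2.1) :=
    NPC.Poly.fst (NPC.Poly.snd (NPC.Poly.snd (NPC.Poly.snd hs)))
  have s5 : NPC.Poly (fun a => (s a).2.2.2.2.1) :=
    NPC.Poly.fst (NPC.Poly.snd (NPC.Poly.snd (NPC.Poly.snd (NPC.Poly.snd hs))))
  have s6 : NPC.Poly (fun a => (s a).2.2.2.2.2) :=
    NPC.Poly.snd (NPC.Poly.snd (NPC.Poly.snd (NPC.Poly.snd (NPC.Poly.snd hs))))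
  have hsome : NPC.Poly (fun a => (s a).1.1.isSome) :=
    (NPC.Poly.optCases (g := fun _ => false) (h := fun _ _ => true) s11 (NPC.Poly.const _)
      (NPC.Poly.const _)).congr fun a => by cases (s a).1.1 <;> rfl
  unfold gstep
  refine NPC.Poly.ite (NPC.Poly.decide_bool hsome) hs ?_
  refine NPC.Poly.ite (NPC.Poly.decide_eq s12 (NPC.Poly.const false)) (poly_first s3 hM) ?_
  have hp1 : NPC.Poly (fun p : α × Tok × List Tok => p.1) := NPC.Poly.fst NPC.Poly.id
  have h1 : NPC.Poly (fun p : α × Tok × List Tok => rstep E K argAt (s p.1).2.1 p.2.1 p.2.2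
      (s p.1).2.2.2.1 (s p.1).2.2.2.2.1 (s p.1).2.2.2.2.2 (M p.1) (M' p.1)) :=
    poly_rstep hE hK hA (s21.comp hp1) (NPC.Poly.fst (NPC.Poly.snd NPC.Poly.id))
      (NPC.Poly.snd (NPC.Poly.snd NPC.Poly.id)) (s4.comp hp1) (s5.comp hp1) (s6.comp hp1)
      (hM.comp hp1) (hM'.comp hp1)
  refine (NPC.Poly.listCases (g := fun _ => sL) (h := fun a t tl => rstep E K argAt (s a).2.1 t tl
    (s a).2.2.2.1 (s a).2.2.2.2.1 (s a).2.2.2.2.2 (M a) (M' a)) s3 (NPC.Poly.const _)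
    h1).congr fun a => ?_
  cases (s a).2.2.1 <;> rfl

end

theorem partD : PartD := by
  intro E K argAt wf hE hK hA hwf
  refine ⟨?_, ?_, ?_⟩
  · exact poly_gstep hE hK hA (NPC.Poly.fst (NPC.Poly.snd NPC.Poly.id))
      (NPC.Poly.fst (NPC.Poly.snd (NPC.Poly.snd NPC.Poly.id)))
      (NPC.Poly.snd (NPC.Poly.snd (NPC.Poly.snd NPC.Poly.id)))
  · exact NPC.Poly.decide_eq (NPC.Poly.fst (NPC.Poly.fst NPC.Poly.id))
      (NPC.Poly.const (some true))
  · have h1 : NPC.Poly (fun x : List Bool => unbits (List Tok) x) := poly_unbits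
    have h2 : NPC.Poly (fun p : List Bool × List Tok =>
        if wf p.2 = true then (((none, false), (0, [], []), p.2, [], 0, false) : Sta) else sL) := by
      refine NPC.Poly.ite (NPC.Poly.decide_bool (hwf.comp (NPC.Poly.snd NPC.Poly.id))) ?_
        (NPC.Poly.const _)
      exact NPC.Poly.pair (NPC.Poly.const (none, false)) (NPC.Poly.pair (NPC.Poly.const (0, [], []))
        (NPC.Poly.pair (NPC.Poly.snd NPC.Poly.id) (NPC.Poly.const ([], 0, false))))
    refine (NPC.Poly.optCases (g := fun _ => sL) (h := fun _ (w : List Tok) =>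
      if wf w = true then (((none, false), (0, [], []), w, [], 0, false) : Sta) else sL) h1
      (NPC.Poly.const _) h2).congr fun x => ?_
    unfold gini
    cases unbits (List Tok) x <;> rfl

end Pool.Agent.Helper48.HY
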