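import Pool.Agent.H75C.HY.GameDef

/-!
# The size of the state of the game
-/

set_option autoImplicit false

namespace Pool.Agent.Helper48.HY

open Pool.Agent.NPC Pool.Agent.H75C.HY

theorem sz_sF (D : Dat) (tl : List Tok) (e : List (ℕ × ℕ)) (v : ℕ) (b r : Bool) :
    sz (sF D tl e v b r) ≤ sz D + sz tl + sz e + sz v + 20 := by
  unfold sF
  have h1 := sz_bool_le r
  have h2 := sz_bool_le b
  simp only [sz_pair, sz_some]
  have h3 := sz_bool_le true
  omega

theorem sz_sN (D : Dat) (tl : List Tok) (e : List (ℕ × ℕ)) (v : ℕ) (b : Bool) :
    sz (sN D tl e v b) ≤ sz D + sz tl + sz e + sz v + 20 := by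
  unfold sN
  have h2 := sz_bool_le b
  simp only [sz_pair, sz_none]
  have h3 := sz_bool_le true
  omega

theorem sz_valB (M : List Bool) : sz (valB M) ≤ 4 * sz M + 1 := by
  have h1 := sz_nat_le (valB M)
  have h2 : (valB M).size ≤ M.length := Nat.size_le.2 (valB_lt M)
  have h3 := sz_listBool_ge M
  omega

theorem partE : PartE := by
  intro E K argAt hA
  obtain ⟨p0, hp0⟩ := ((poly_unbits (α := Dat × List (ℕ × ℕ) × ℕ)).comp
    (NPC.Poly.fst poly_unpair)).sz_le
  refine ⟨p0 + Polynomial.C 4 * Polynomial.X + Polynomial.C (sz sL + 60), fun s M M' => ?_⟩
  have hq : (p0 + Polynomial.C 4 * Polynomial.X + Polynomial.C (sz sL + 60)).eval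
      (sz () + sz M + sz M') = p0.eval (sz () + sz M + sz M') + 4 * (sz () + sz M + sz M') +
        (sz sL + 60) := by simp
  rw [hq]
  have hq1 : p0.eval (sz M) ≤ p0.eval (sz () + sz M + sz M') := eval_mono p0 (by omega)
  generalize p0.eval (sz () + sz M + sz M') = Q at hq1 ⊢
  generalize sz () = U
  have hm := sz_valB M
  have hm' := sz_valB M'
  obtain ⟨⟨o, f⟩, D, w, e, v, b⟩ := s
  have hs : sz ((((o, f), D, w, e, v, b) : Sta)) =
      sz o + sz f + 1 + (sz D + (sz w + (sz e + (sz v + sz b + 1) + 1) + 1) + 1) + 1 := by
    simp only [sz_pair]
  rw [hs]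
  unfold gstep
  by_cases h1 : o.isSome = true
  · simp only [h1, if_true]
    rw [hs]
    omega
  · simp only [h1, if_false, Bool.false_eq_true]
    cases f with
    | false =>
      simp only [if_true]
      unfold first
      have h3 := hp0 M
      cases hu : unbits (Dat × List (ℕ × ℕ) × ℕ) (unpair M).1 with
      | none =>
        simp only
        omega
      | some d =>
        rw [hu] at h3
        obtain ⟨D', l, u⟩ := d
        simp only [sz_some, sz_pair] at h3
        simp only
        have h4 := sz_sN D' w l u true
        split_ifs
        · omega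
        · omega
    | true =>
      rw [if_neg (show ¬ (true = false) by decide)]
      cases w with
      | nil =>
        simp only
        omega
      | cons t tl =>
        simp only
        have hF : ∀ r, sz (sF D tl e v b r) ≤ sz D + sz tl + sz e + sz v + 20 :=
          fun r => sz_sF D tl e v b r
        have hw : sz (t :: tl) = sz t + sz tl + 1 := sz_list_cons t tl
        have ht : sz t = sz t.1 + sz t.2 + 1 := by
          obtain ⟨t1, t2⟩ := t
          simp only [sz_pair]
        have hFle : ∀ r, sz (sF D tl e v b r) ≤ sz o + sz true + 1 +
            (sz D + (sz (t :: tl) + (sz e + (sz v + sz b + 1) + 1) + 1) + 1) + 1 +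
              (Q + 4 * (U + sz M + sz M') + (sz sL + 60)) := by
          intro r
          have := hF r
          omega
        unfold rstep
        split_ifs
        · exact hFle _
        · exact hFle _
        · exact hFle _
        · have h4 := sz_sN D (argAt (t :: tl) (valB M')) e v (M.getD (valB M') false)
          have h5 := hA (t :: tl) (valB M')
          omega
        · exact hFle _
        · exact hFle _
        · have h4 := sz_sN D tl e (valB M) b
          omega
        · exact hFle _
        · have h4 := sz_sN D tl e (valB M') b
          omega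
        · exact hFle _
        · have h4 := sz_sN D tl ((t.2, min v M.length) :: e) v b
          have h5 : sz ((t.2, min v M.length) :: e) = (sz t.2 + sz (min v M.length) + 1) + sz e +
              1 := by
            rw [sz_list_cons, sz_pair]
          have h6 := sz_nat_le' (min v M.length)
          have h7 : min v M.length ≤ M.length := min_le_right _ _
          have h8 := sz_listBool_ge M
          omega
        · exact hFle _

end Pool.Agent.Helper48.HY
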